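import Pool.Agent.helper48.CG.Spec

/-!
Project cg, module COR (helper66).
-/

set_option autoImplicit false

namespace Pool.Agent.helper48.CG

open Equiv Finset Function Pool.Agent.helper48.PP

theorem COR_val {c d : ℕ} (x : Perm (Fin c)) (i : Fin (c + d)) :
    ((dsum x (1 : Perm (Fin d))) i : ℕ) = if h : (i : ℕ) < c then (x ⟨i, h⟩ : ℕ) else i := by
  refine Fin.addCases (fun s => ?_) (fun t => ?_) i
  · rw [dsum_castAdd]
    have h : ((Fin.castAdd d s : Fin (c + d)) : ℕ) < c := by simp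
    rw [dif_pos h]
    rfl
  · rw [dsum_natAdd]
    have h : ¬ ((Fin.natAdd c t : Fin (c + d)) : ℕ) < c := by simp
    rw [dif_neg h]
    rfl

theorem COR_zero {c : ℕ} (z : Perm (Fin c)) :
    (dsum z (1 : Perm (Fin 0)) : Perm (Fin (c + 0))) = (z : Perm (Fin (c + 0))) := by
  refine Equiv.ext (fun i => ?_)
  refine Fin.ext ?_
  rw [COR_val z i]
  have h : (i : ℕ) < c := i.2
  rw [dif_pos h]
  rfl

theorem COR_two {c : ℕ} (x : Perm (Fin c)) :
    (@dsum (c + 1) 1 (@dsum c 1 x 1) 1 : Perm (Fin (c + 1 + 1))) =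
      (@dsum c 2 x 1 : Perm (Fin (c + 2))) := by
  refine Equiv.ext (fun i => ?_)
  refine Fin.ext ?_
  have h1 : ((@dsum (c + 1) 1 (@dsum c 1 x 1) 1) i : ℕ) =
      if h : (i : ℕ) < c + 1 then ((@dsum c 1 x 1) ⟨i, h⟩ : ℕ) else i :=
    COR_val (@dsum c 1 x 1) i
  have h2 : ((@dsum c 2 x 1) i : ℕ) = if h : (i : ℕ) < c then (x ⟨i, h⟩ : ℕ) else i :=
    COR_val (d := 2) x i
  rw [h2]
  refine h1.trans ?_
  by_cases h : (i : ℕ) < c + 1
  · rw [dif_pos h]
    exact COR_val x ⟨i, h⟩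
  · rw [dif_neg h, dif_neg (by omega)]

/-- COR. -/
theorem COR (hFIN : FIN_stmt) : COR_stmt := by
  intro a b x y
  have h1 : SkewIndec (dsum x (Equiv.swap (0 : Fin 2) 1)) :=
    skewIndec_dsum (by omega) (by omega) x _
  have h2 : (dsum x (Equiv.swap (0 : Fin 2) 1)) (Fin.last (a + 1 + 1)) ≠
      Fin.last (a + 1 + 1) := by
    have e : (Fin.last (a + 1 + 1) : Fin (a + 1 + 2)) = Fin.natAdd (a + 1) (1 : Fin 2) := by
      apply Fin.ext
      simp
    intro h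
    have h3 : (dsum x (Equiv.swap (0 : Fin 2) 1)) (Fin.natAdd (a + 1) (1 : Fin 2)) =
        Fin.natAdd (a + 1) (1 : Fin 2) := by
      rw [← e]; exact h
    rw [dsum_natAdd] at h3
    have h4 := congrArg (fun z : Fin (a + 1 + 2) => (z : ℕ)) h3
    simp at h4
  have h3 : ∀ m, avCount m (dsum (dsum x (1 : Perm (Fin 1))) (1 : Perm (Fin 1))) ≤
      avCount m (dsum x (Equiv.swap (0 : Fin 2) 1)) := by
    intro m
    have h4 := swap_dominance x (1 : Perm (Fin 0)) m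
    have h5 : avCount m (dsum (dsum x (1 : Perm (Fin 2))) (1 : Perm (Fin 0))) =
        avCount m (dsum x (1 : Perm (Fin 2))) :=
      congrArg (fun z : Perm (Fin (a + 1 + 2 + 0)) => avCount m z)
        (COR_zero (dsum x (1 : Perm (Fin 2))))
    have h6 : avCount m (dsum (dsum x (Equiv.swap (0 : Fin 2) 1)) (1 : Perm (Fin 0))) =
        avCount m (dsum x (Equiv.swap (0 : Fin 2) 1)) :=
      congrArg (fun z : Perm (Fin (a + 1 + 2 + 0)) => avCount m z)
        (COR_zero (dsum x (Equiv.swap (0 : Fin 2) 1)))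
    have h7 : avCount m (dsum (dsum x (1 : Perm (Fin 1))) (1 : Perm (Fin 1))) =
        avCount m (dsum x (1 : Perm (Fin 2))) :=
      congrArg (fun z : Perm (Fin (a + 1 + 2)) => avCount m z) (COR_two x)
    rw [h5, h6] at h4
    exact h7.le.trans h4
  have h8 := hFIN (a := a + 1 + 1) (b := b) (k := a + 1 + 1) (@dsum (a + 1) 1 x 1) y
    (@dsum (a + 1) 2 x (Equiv.swap (0 : Fin 2) 1)) h1 h2 h3
  let S : Perm (Fin (a + 1 + 2)) → Prop := fun z => ∃ ρ : ℝ, 1 < ρ ∧ ∃ N, ∀ n, N ≤ n →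
    ρ ^ n * (avCount n (@dsum (a + 1 + 2) (b + 1) z y) : ℝ) ≤
      (avCount n (dsum (dsum x (Equiv.swap (0 : Fin 2) 1)) y) : ℝ) ∧
    (avCount n (@dsum (a + 1 + 2) (b + 1) z y) : ℝ) <
      (avCount n (dsum (dsum x (Equiv.swap (0 : Fin 2) 1)) y) : ℝ)
  have h9 : S (@dsum (a + 1 + 1) 1 (@dsum (a + 1) 1 x 1) 1) := h8
  have h10 : S (@dsum (a + 1) 2 x 1) := (COR_two x) ▸ h9
  exact h10

end Pool.Agent.helper48.CG
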